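import Pool.Agent.Y136.NilHeart.Heart

set_option autoImplicit false

namespace Pool.Agent.Results.MP_c4a975_al.NilOfIndexThree

open Pool.Agent.Results.MP_c4a975_al.EveryCharacteristic

/-- For every field `K` there is a `K`-algebra `R` which is right alternative, satisfies the right
Moufang identity and the identity `x ^ 3 = 0`, and has an ideal `I` (also stable under scalars)
which contains all products of elements of `R`, is contained in every nonzero ideal of the ring
`R`, and is a minimal ideal of `R` that is neither simple as a ring, nor solvable, nor right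
nilpotent. -/
theorem result (K : Type) [Field K] :
    ∃ (R : Type) (_ : NonUnitalNonAssocRing R) (_ : Module K R),
      (∀ (c : K) (x y : R), (c • x) * y = c • (x * y) ∧ x * (c • y) = c • (x * y)) ∧
      RightAlternative R ∧
      (∀ x y z : R, ((x * y) * z) * y = x * ((y * z) * y)) ∧
      (∀ x : R, (x * x) * x = 0 ∧ x * (x * x) = 0) ∧
      ∃ I : AddSubgroup R, IsMinimalIdeal I ∧ (∀ J : AddSubgroup R, IsIdeal J → J ≠ ⊥ → I ≤ J) ∧
        (∀ x y : R, x * y ∈ I) ∧ (∀ (c : K), ∀ x ∈ I, c • x ∈ I) ∧
        ¬ IsSimpleAsRing I ∧ ¬ IsSolvableIdeal I ∧ ¬ IsRightNilpotent I :=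
  Pool.Agent.Y136.NilHeart.main_nil K

end Pool.Agent.Results.MP_c4a975_al.NilOfIndexThree
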